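import Mathlib
import Pool.Agent.Helper70.BN.St1

/-!
# Project BN, module YB3: the Yang-Baxter equation for `m = 3`
-/

set_option autoImplicit false

namespace Pool.Agent.Helper35.BN

open Pool.Agent.Helper70.BN

theorem yb3_coeff (q x y : ℝ) (hx : x ≠ 1) (hy : y ≠ 1) (hxy : x * y ≠ 1) :
    ((q - 1) / (x - 1)) * ((q - 1) / (y - 1)) =
      ((q - 1) / (x * y - 1)) * ((q - 1) / (x - 1) + (q - 1) / (y - 1) + (q - 1)) := by
  have h1 : x - 1 ≠ 0 := sub_ne_zero.2 hx
  have h2 : y - 1 ≠ 0 := sub_ne_zero.2 hy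
  have h3 : x * y - 1 ≠ 0 := sub_ne_zero.2 hxy
  field_simp
  ring

theorem yb3_aux {H : Type} [Ring H] [Algebra ℝ H] (S T : H) (q a b c : ℝ)
    (hS : S * S = algebraMap ℝ H q + algebraMap ℝ H (q - 1) * S)
    (hT : T * T = algebraMap ℝ H q + algebraMap ℝ H (q - 1) * T)
    (hST : S * T * S = T * S * T) (h : a * c = b * (a + c + (q - 1))) :
    (algebraMap ℝ H a + S) * (algebraMap ℝ H b + T) * (algebraMap ℝ H c + S) =
      (algebraMap ℝ H c + T) * (algebraMap ℝ H b + S) * (algebraMap ℝ H a + T) := by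
  simp only [Algebra.algebraMap_eq_smul_one, smul_mul_assoc, one_mul] at hS hT
  simp only [Algebra.algebraMap_eq_smul_one, mul_add, add_mul, smul_mul_assoc, mul_smul_comm,
    one_mul, mul_one, hS, hT, hST]
  match_scalars <;> first | ring1 | linear_combination h | linear_combination -h

theorem hYB3 : StYB3 := by
  intro H _ _ S T q x y hS hT hST hx hy hxy
  exact yb3_aux S T q _ _ _ hS hT hST (yb3_coeff q x y hx hy hxy)

end Pool.Agent.Helper35.BN
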